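import Pool.Agent.H.MP_e5baee_al.A

set_option autoImplicit false

namespace Pool.Agent.Results.MP_e5baee_al.Image

open Matrix Pool.Agent.H.MP_e5baee_al

/-- identity matrix with the block `[[p, q], [r, s]]` on the coordinates `i, j` -/
def blk {n : ℕ} (p q r s : ℤ) (i j : Fin n) : Matrix (Fin n) (Fin n) ℤ := Matrix.of fun a b =>
  if a = i then (if b = i then p else if b = j then q else 0)
  else if a = j then (if b = i then r else if b = j then s else 0)
  else if a = b then 1 else 0

/-- the images of the generators `σ_i`, `τ_i` of `vB_{m+1}` -/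
def gens (m : ℕ) : Set (GL (Fin (m + 1)) ℤ) :=
  {g | ∃ i : Fin m, (g : Matrix (Fin (m + 1)) (Fin (m + 1)) ℤ) = blk 2 (-1) 1 0 i.castSucc i.succ ∨
    (g : Matrix (Fin (m + 1)) (Fin (m + 1)) ℤ) = blk 0 1 1 0 i.castSucc i.succ}

lemma tau_eq {n : ℕ} {i j : Fin n} (h : i ≠ j) :
    blk 0 1 1 0 i j = (Equiv.swap i j).permMatrix ℤ := by
  ext a b
  simp only [blk, of_apply, PEquiv.toMatrix_apply, Equiv.toPEquiv_apply, Option.mem_def,
    Option.some.injEq, Equiv.swap_apply_def]
  split_ifs <;> omega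

lemma sig_eq {n : ℕ} {i j : Fin n} (h : i ≠ j) :
    blk 2 (-1) 1 0 i j = mv (Pi.single i 1) j i (blk 0 1 1 0 i j) := by
  ext a b
  simp only [blk, mv, of_apply, Pi.single_apply, h.symm, if_true, if_false]
  split_ifs <;> simp_all

theorem result (m : ℕ) (M : GL (Fin (m + 1)) ℤ) : M ∈ Subgroup.closure (gens m) ↔
    (M : Matrix (Fin (m + 1)) (Fin (m + 1)) ℤ) *ᵥ (fun _ => 1) = (fun _ => 1) ∧
      ∃ π : Equiv.Perm (Fin (m + 1)), (M : Matrix (Fin (m + 1)) (Fin (m + 1)) ℤ).map
        (Int.cast : ℤ → ZMod 2) = π.permMatrix (ZMod 2) := by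
  have ne : ∀ i : Fin m, i.castSucc ≠ i.succ := fun i => (Fin.castSucc_lt_succ).ne
  have pc : ∀ π : Equiv.Perm (Fin (m + 1)),
      (π.permMatrix ℤ).map (Int.cast : ℤ → ZMod 2) = π.permMatrix (ZMod 2) := fun π => by
    ext a b
    simp [PEquiv.toMatrix_apply]
  constructor
  · intro h
    induction h using Subgroup.closure_induction with
    | mem g hg =>
      obtain ⟨i, h | h⟩ := hg
      · rw [h, sig_eq (ne i), tau_eq (ne i)]
        refine ⟨?_, Equiv.swap i.castSucc i.succ, ?_⟩
        · ext a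
          have := fun a => congrFun (permMatrix_mulVec (R := ℤ) (Equiv.swap i.castSucc i.succ)
            (v := fun _ => 1)) a
          simp only [mulVec, dotProduct, mul_one, Function.comp] at this
          simp only [mv, mulVec, dotProduct, mul_one, of_apply, Finset.sum_add_distrib,
            ← Finset.mul_sum, Finset.sum_sub_distrib, this]
          ring
        · rw [← pc]
          ext a b
          simp only [mv, map_apply, of_apply]
          push_cast
          rw [show (2 : ZMod 2) = 0 from rfl, zero_mul, zero_mul, add_zero]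
      · rw [h, tau_eq (ne i)]
        exact ⟨permMatrix_mulVec _, _, pc _⟩
    | one => exact ⟨by simp, 1, by simp⟩
    | mul a b _ _ ha hb =>
      obtain ⟨h1, π, h2⟩ := ha
      obtain ⟨h3, ρ, h4⟩ := hb
      refine ⟨by rw [Units.val_mul, ← mulVec_mulVec, h3, h1], ρ * π, ?_⟩
      rw [permMatrix_mul, ← h2, ← h4, Units.val_mul]
      exact Matrix.map_mul (f := Int.castRingHom (ZMod 2))
    | inv a _ ha =>
      obtain ⟨h1, π, h2⟩ := ha
      refine ⟨?_, π⁻¹, ?_⟩
      · conv_lhs => rw [← h1, mulVec_mulVec, Units.inv_mul, one_mulVec]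
      · have := Matrix.map_mul (f := Int.castRingHom (ZMod 2)) (L := (a⁻¹ : GL _ ℤ).val)
          (M := a.val)
        rw [Units.inv_mul] at this
        change _ = _ * a.val.map (Int.cast : ℤ → ZMod 2) at this
        rw [h2] at this
        have h3 := congrArg (· * (π⁻¹).permMatrix (ZMod 2)) this
        simp only [Matrix.mul_assoc, ← permMatrix_mul, inv_mul_cancel, permMatrix_one,
          Matrix.mul_one] at h3
        rw [Matrix.map_one _ (by simp) (by simp), Matrix.one_mul] at h3
        exact h3.symm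
  · rintro ⟨h1, π, h2⟩
    let Q : Matrix (Fin (m + 1)) (Fin (m + 1)) ℤ → Prop :=
      fun A => ∃ g ∈ Subgroup.closure (gens m), g.val = A
    have qm : ∀ A B, Q A → Q B → Q (A * B) := by
      rintro _ _ ⟨a, ha, rfl⟩ ⟨b, hb, rfl⟩
      exact ⟨a * b, mul_mem ha hb, rfl⟩
    have q1 : Q 1 := ⟨1, one_mem _, rfl⟩
    have tt : ∀ i : Fin m, blk 0 1 1 0 i.castSucc i.succ * blk 0 1 1 0 i.castSucc i.succ = 1 :=
      fun i => by rw [tau_eq (ne i), ← permMatrix_mul, Equiv.swap_mul_self, permMatrix_one]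
    have qt : ∀ i : Fin m, Q (blk 0 1 1 0 i.castSucc i.succ) := fun i =>
      ⟨⟨_, _, tt i, tt i⟩, Subgroup.subset_closure ⟨i, Or.inr rfl⟩, rfl⟩
    have qp : ∀ π : Equiv.Perm (Fin (m + 1)), Q (π.permMatrix ℤ) := fun π => by
      have : π ∈ Submonoid.closure (Set.range fun i : Fin m => Equiv.swap i.castSucc i.succ) := by
        rw [Equiv.Perm.mclosure_swap_castSucc_succ]; trivial
      induction this using Submonoid.closure_induction with
      | mem x hx =>
        obtain ⟨i, rfl⟩ := hx
        simpa only [tau_eq (ne i)] using qt i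
      | one => rwa [permMatrix_one]
      | mul a b _ _ ha hb => rw [permMatrix_mul]; exact qm _ _ hb ha
    have qs : ∀ i : Fin m, Q (mv (Pi.single i.castSucc 1) i.succ i.castSucc 1) := fun i => by
      have e : blk 2 (-1) 1 0 i.castSucc i.succ * (blk 0 1 1 0 i.castSucc i.succ *
          mv (Pi.single i.castSucc 1) i.succ i.castSucc 1) = 1 := by
        rw [← Matrix.mul_assoc, sig_eq (ne i), mv_mul, tt, mv_mul, Matrix.one_mul, mv_refl (ne i)]
      have := qm (blk 2 (-1) 1 0 i.castSucc i.succ) _ ⟨⟨_, _, e, mul_eq_one_comm.1 e⟩,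
        Subgroup.subset_closure ⟨i, Or.inl rfl⟩, rfl⟩ (qt i)
      rwa [sig_eq (ne i), mv_mul, tt] at this
    have cl : Cl Q := by
      intro i j A hij hA
      have hm : 0 < m := by
        rcases Nat.eq_zero_or_pos m with h | h
        · exact absurd (Fin.ext (by omega)) hij
        · exact h
      obtain ⟨ρ, hρ⟩ := Equiv.Perm.exists_extending_pair ![i, j]
        ![(⟨0, hm⟩ : Fin m).castSucc, (⟨0, hm⟩ : Fin m).succ]
        (by intro a b; fin_cases a <;> fin_cases b <;> simp [hij, hij.symm])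
        (by intro a b; fin_cases a <;> fin_cases b <;> simp [Fin.ext_iff])
      have r0 : (⟨0, hm⟩ : Fin m).castSucc = ρ i := (hρ 0).symm
      have r1 : (⟨0, hm⟩ : Fin m).succ = ρ j := (hρ 1).symm
      have := qm _ _ (qm _ _ (qm _ _ (qp ρ) (qs ⟨0, hm⟩)) (qp ρ⁻¹)) hA
      rw [r0, r1, PEquiv.toMatrix_toPEquiv_mul, PEquiv.mul_toMatrix_toPEquiv] at this
      convert this
      rw [← Matrix.one_mul A, ← mv_mul, Matrix.one_mul]
      congr 1
      ext a b
      simp [mv, one_apply, Pi.single_apply, Equiv.Perm.inv_def]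
    have hg : Good ((π⁻¹).permMatrix ℤ * M.val) := by
      refine ⟨⟨(M⁻¹).val * π.permMatrix ℤ, ?_⟩, fun a => ?_, fun a b => ?_⟩
      · rw [Matrix.mul_assoc, ← Matrix.mul_assoc (π.permMatrix ℤ), ← permMatrix_mul,
          inv_mul_cancel, permMatrix_one, Matrix.one_mul, Units.inv_mul]
      · rw [PEquiv.toMatrix_toPEquiv_mul]
        simpa [mulVec, dotProduct] using congrFun h1 (π⁻¹ a)
      · rw [PEquiv.toMatrix_toPEquiv_mul]
        refine (ZMod.intCast_zmod_eq_zero_iff_dvd _ 2).1 ?_
        have := congrFun (congrFun h2 (π⁻¹ a)) b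
        rw [map_apply] at this
        rw [Int.cast_sub, submatrix_apply, id, this]
        simp [one_apply, PEquiv.toMatrix_apply]
    have := qm _ _ (qp π) (main cl q1 0 (Finset.univ.erase 0) (by simp) _ hg
      (fun k h1 h2 => absurd (by simp [h2]) h1))
    rw [← Matrix.mul_assoc, ← permMatrix_mul, inv_mul_cancel, permMatrix_one,
      Matrix.one_mul] at this
    obtain ⟨g, hg, e⟩ := this
    rwa [← Units.ext e]

end Pool.Agent.Results.MP_e5baee_al.Image
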